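import Mathlib

set_option autoImplicit false
open scoped Topology
open MeasureTheory Set Filter Complex

namespace Pool.Agent.H.MP_540347_an

noncomputable def zc (t : ℝ) : ℂ := Complex.exp (2 * Real.pi * I * t)

lemma zc_norm (t : ℝ) : ‖zc t‖ = 1 := by
  unfold zc
  rw [show 2 * Real.pi * I * (t : ℂ) = ((2 * Real.pi * t : ℝ) : ℂ) * I by push_cast; ring]
  exact Complex.norm_exp_ofReal_mul_I _

lemma zc_ne (t : ℝ) : zc t ≠ 0 := Complex.exp_ne_zero _

@[fun_prop] lemma zc_cont : Continuous zc := by unfold zc; fun_prop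

lemma zc_per : Function.Periodic zc 1 := by
  intro t
  unfold zc
  push_cast
  rw [mul_add, Complex.exp_add, mul_one, Complex.exp_two_pi_mul_I, mul_one]

lemma zc_mul (M : ℕ) (t : ℝ) : zc (M * t) = zc t ^ M := by
  unfold zc
  rw [← Complex.exp_nat_mul]
  congr 1
  push_cast; ring

lemma zc_conj (t : ℝ) : zc t * (starRingEnd ℂ) (zc t) = 1 := by
  rw [Complex.mul_conj, Complex.normSq_eq_norm_sq, zc_norm]; simp

lemma four_zc (n : ℤ) (t : ℝ) : fourier n (t : AddCircle (1 : ℝ)) = zc t ^ n := by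
  rw [fourier_coe_apply]
  unfold zc
  rw [← Complex.exp_int_mul]
  congr 1
  push_cast; ring

lemma avg (f : ℂ → ℝ) (r : ℝ) : Real.circleAverage f 0 r = ∫ t in (0 : ℝ)..1, f (r * zc t) := by
  rw [Real.circleAverage_def]
  have h := intervalIntegral.integral_comp_mul_left (a := 0) (b := 1) (c := 2 * Real.pi)
    (fun θ => f (circleMap 0 r θ)) (by positivity)
  simp only [mul_zero, mul_one] at h
  rw [← h]
  refine intervalIntegral.integral_congr fun t _ => ?_
  simp only [circleMap, zc, zero_add]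
  congr 3
  push_cast; ring

lemma mean_harm {g : ℂ → ℝ} {r : ℝ} (hr : 0 ≤ r)
    (hg : InnerProductSpace.HarmonicOnNhd g (Metric.closedBall 0 r)) :
    ∫ t in (0 : ℝ)..1, g (r * zc t) = g 0 := by
  rw [← avg]
  apply HarmonicOnNhd.circleAverage_eq
  rwa [abs_of_nonneg hr]

lemma mean_re {P : ℂ → ℂ} (hP : Differentiable ℂ P) :
    ∫ t in (0 : ℝ)..1, (P (zc t)).re = (P 0).re := by
  have := mean_harm (g := fun z => (P z).re) (r := 1) zero_le_one
    (fun z _ => (hP.analyticAt z).harmonicAt_re)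
  simpa using this

lemma dense_trig {f : ℝ → ℝ} (hf : Continuous f) (hp : Function.Periodic f 1) {ε : ℝ} (hε : 0 < ε) :
    ∃ g ∈ Submodule.span ℂ (range (@fourier (1 : ℝ))), ∀ t : ℝ, ‖g (t : AddCircle (1 : ℝ)) - f t‖ < ε := by
  haveI : Fact ((0 : ℝ) < 1) := ⟨one_pos⟩
  let F : C(AddCircle (1 : ℝ), ℂ) := ⟨fun x => (hp.lift x : ℝ), by
    refine Complex.continuous_ofReal.comp ?_
    exact continuous_coinduced_dom.2 hf⟩
  have h1 : F ∈ closure (Submodule.span ℂ (range (@fourier (1 : ℝ))) : Set C(AddCircle (1 : ℝ), ℂ)) := by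
    rw [← Submodule.topologicalClosure_coe, span_fourier_closure_eq_top]; trivial
  obtain ⟨g, hg, h2⟩ := Metric.mem_closure_iff.1 h1 ε hε
  refine ⟨g, hg, fun t => ?_⟩
  have h3 := (ContinuousMap.dist_apply_le_dist (f := F) (g := g) (t : AddCircle (1 : ℝ))).trans_lt h2
  rw [dist_comm, dist_eq_norm] at h3
  exact h3

lemma spanA {g : C(AddCircle (1 : ℝ), ℂ)} (hg : g ∈ Submodule.span ℂ (range (@fourier (1 : ℝ)))) :
    ∃ (D : ℕ) (Q1 Q2 : ℂ → ℂ), Differentiable ℂ Q1 ∧ Differentiable ℂ Q2 ∧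
      ∀ t : ℝ, Q1 (zc t) = zc t ^ D * g t ∧ Q2 (zc t) = zc t ^ D * (starRingEnd ℂ) (g t) := by
  induction hg using Submodule.span_induction with
  | mem x hx =>
    obtain ⟨n, rfl⟩ := hx
    refine ⟨n.natAbs, fun z => z ^ (n.natAbs + n).toNat, fun z => z ^ (n.natAbs - n).toNat,
      by fun_prop, by fun_prop, fun t => ⟨?_, ?_⟩⟩
    · beta_reduce
      rw [four_zc, ← zpow_natCast, ← zpow_natCast, ← zpow_add₀ (zc_ne t)]
      congr 1
      omega
    · beta_reduce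
      rw [← fourier_neg, four_zc, ← zpow_natCast, ← zpow_natCast, ← zpow_add₀ (zc_ne t)]
      congr 1
      omega
  | zero => exact ⟨0, fun _ => 0, fun _ => 0, by fun_prop, by fun_prop, fun t => by simp⟩
  | add x y _ _ hx hy =>
    obtain ⟨D, Q1, Q2, h1, h2, h3⟩ := hx
    obtain ⟨D', R1, R2, h4, h5, h6⟩ := hy
    refine ⟨D + D', fun z => z ^ D' * Q1 z + z ^ D * R1 z, fun z => z ^ D' * Q2 z + z ^ D * R2 z,
      by fun_prop, by fun_prop, fun t => ?_⟩
    simp only [(h3 t).1, (h3 t).2, (h6 t).1, (h6 t).2, ContinuousMap.add_apply, map_add]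
    constructor <;> ring
  | smul c x _ hx =>
    obtain ⟨D, Q1, Q2, h1, h2, h3⟩ := hx
    refine ⟨D, fun z => c * Q1 z, fun z => (starRingEnd ℂ) c * Q2 z,
      by fun_prop, by fun_prop, fun t => ?_⟩
    simp only [(h3 t).1, (h3 t).2, ContinuousMap.smul_apply, smul_eq_mul, map_mul]
    constructor <;> ring

lemma spanB {g : C(AddCircle (1 : ℝ), ℂ)} (hg : g ∈ Submodule.span ℂ (range (@fourier (1 : ℝ)))) :
    ∃ (P1 P2 : ℂ → ℂ), Differentiable ℂ P1 ∧ Differentiable ℂ P2 ∧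
      ∀ t : ℝ, g t = P1 (zc t) + (starRingEnd ℂ) (P2 (zc t)) := by
  induction hg using Submodule.span_induction with
  | mem x hx =>
    obtain ⟨n, rfl⟩ := hx
    rcases le_total 0 n with h | h
    · refine ⟨fun z => z ^ n.toNat, fun _ => 0, by fun_prop, by fun_prop, fun t => ?_⟩
      beta_reduce
      rw [four_zc, ← zpow_natCast, Int.toNat_of_nonneg h]; simp
    · refine ⟨fun _ => 0, fun z => z ^ (-n).toNat, by fun_prop, by fun_prop, fun t => ?_⟩
      beta_reduce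
      rw [← zpow_natCast, Int.toNat_of_nonneg (by omega), ← four_zc, ← fourier_neg]; simp
  | zero => exact ⟨fun _ => 0, fun _ => 0, by fun_prop, by fun_prop, fun t => by simp⟩
  | add x y _ _ hx hy =>
    obtain ⟨Q1, Q2, h1, h2, h3⟩ := hx
    obtain ⟨R1, R2, h4, h5, h6⟩ := hy
    refine ⟨fun z => Q1 z + R1 z, fun z => Q2 z + R2 z, by fun_prop, by fun_prop, fun t => ?_⟩
    simp only [h3 t, h6 t, ContinuousMap.add_apply, map_add]
    ring
  | smul c x _ hx =>
    obtain ⟨Q1, Q2, h1, h2, h3⟩ := hx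
    refine ⟨fun z => c * Q1 z, fun z => (starRingEnd ℂ) c * Q2 z,
      by fun_prop, by fun_prop, fun t => ?_⟩
    simp only [h3 t, ContinuousMap.smul_apply, smul_eq_mul, map_mul, Complex.conj_conj]
    ring

lemma re_close {w : ℂ} {x ε : ℝ} (h : ‖w - x‖ < ε) : |w.re - x| < ε := by
  have := Complex.abs_re_le_norm (w - x)
  simp only [sub_re, ofReal_re] at this
  linarith

lemma approxA {f : ℝ → ℝ} (hf : Continuous f) (hp : Function.Periodic f 1) {ε : ℝ} (hε : 0 < ε) :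
    ∃ (D : ℕ) (Q : ℂ → ℂ) (d : ℝ → ℝ), Differentiable ℂ Q ∧ Continuous d ∧
      ∀ t : ℝ, Q (zc t) = zc t ^ D * d t ∧ |d t - f t| < ε := by
  obtain ⟨g, hg, h1⟩ := dense_trig hf hp hε
  obtain ⟨D, Q1, Q2, h2, h3, h4⟩ := spanA hg
  refine ⟨D, fun z => (Q1 z + Q2 z) / 2, fun t => (g t).re, by fun_prop, ?_, fun t => ⟨?_, re_close (h1 t)⟩⟩
  · exact Complex.continuous_re.comp (g.continuous.comp continuous_quotient_mk')
  · simp only [(h4 t).1, (h4 t).2]
    rw [Complex.re_eq_add_conj]; ring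

lemma approxB {f : ℝ → ℝ} (hf : Continuous f) (hp : Function.Periodic f 1) {ε : ℝ} (hε : 0 < ε) :
    ∃ P : ℂ → ℂ, Differentiable ℂ P ∧ ∀ t : ℝ, |(P (zc t)).re - f t| < ε := by
  obtain ⟨g, hg, h1⟩ := dense_trig hf hp hε
  obtain ⟨P1, P2, h2, h3, h4⟩ := spanB hg
  refine ⟨fun z => P1 z + P2 z, by fun_prop, fun t => ?_⟩
  have := re_close (h1 t)
  rw [h4 t] at this
  simpa using this

lemma approxB0 {f : ℝ → ℝ} (hf : Continuous f) (hp : Function.Periodic f 1) {ε : ℝ} (hε : 0 < ε)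
    (hm : |∫ t in (0 : ℝ)..1, f t| ≤ ε) :
    ∃ E : ℂ → ℂ, Differentiable ℂ E ∧ ∀ t : ℝ, |(zc t * E (zc t)).re - f t| < 3 * ε := by
  obtain ⟨P, h1, h2⟩ := approxB hf hp hε
  refine ⟨dslope P 0, ?_, fun t => ?_⟩
  · rw [← differentiableOn_univ, Complex.differentiableOn_dslope univ_mem]
    exact h1.differentiableOn
  · have h3 : zc t * dslope P 0 (zc t) = P (zc t) - P 0 := by
      have := sub_smul_dslope P 0 (zc t)
      simpa using this
    have hc : Continuous fun t => (P (zc t)).re := by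
      have := h1.continuous
      fun_prop
    have h4 : |(P 0).re - ∫ t in (0 : ℝ)..1, f t| ≤ ε := by
      rw [← mean_re h1, ← intervalIntegral.integral_sub (hc.intervalIntegrable _ _) (hf.intervalIntegrable _ _)]
      have := intervalIntegral.norm_integral_le_of_norm_le_const (a := 0) (b := 1) (C := ε)
        (f := fun t => (P (zc t)).re - f t) (fun t _ => (h2 t).le)
      simpa using this
    rw [h3, sub_re]
    have := h2 t
    rw [abs_lt] at this ⊢
    rw [abs_le] at h4 hm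
    constructor <;> linarith [this.1, this.2, h4.1, h4.2, hm.1, hm.2]

lemma uc {Θ : ℝ × ℝ → ℝ} (hΘ : Continuous Θ) (R : ℝ) {η : ℝ} (hη : 0 < η) :
    ∃ δ > 0, ∀ p ∈ Icc (0 : ℝ) 1 ×ˢ Icc (-R) R, ∀ q ∈ Icc (0 : ℝ) 1 ×ˢ Icc (-R) R,
      |p.1 - q.1| < δ → |p.2 - q.2| < δ → |Θ p - Θ q| < η := by
  have h := (isCompact_Icc.prod isCompact_Icc : IsCompact (Icc (0 : ℝ) 1 ×ˢ Icc (-R) R)).uniformContinuousOn_of_continuous
    hΘ.continuousOn
  obtain ⟨δ, hδ, h2⟩ := Metric.uniformContinuousOn_iff.1 h η hη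
  refine ⟨δ, hδ, fun p hp q hq h3 h4 => ?_⟩
  have := h2 p hp q hq (by rw [Prod.dist_eq, Real.dist_eq, Real.dist_eq]; exact max_lt h3 h4)
  rwa [Real.dist_eq] at this

lemma int_ge {ψ : ℝ → ℝ} (hψ : Continuous ψ) {a b c : ℝ} (hab : a ≤ b) (h : ∀ t ∈ Icc a b, c ≤ ψ t) :
    (b - a) * c ≤ ∫ t in a..b, ψ t := by
  have := intervalIntegral.integral_mono_on (μ := volume) (f := fun _ => c) (g := ψ) hab
    (continuous_const.intervalIntegrable _ _) (hψ.intervalIntegrable _ _) h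
  simpa using this

lemma sub4 {ψ : ℝ → ℝ} (hψ : Continuous ψ) {q κ α β K : ℝ} (hκ : 0 ≤ κ) (hq : 2 * κ ≤ q) (hq1 : q ≤ 1)
    (h1 : ∀ t ∈ Icc κ (q - κ), α ≤ ψ t) (h2 : ∀ t ∈ Icc q 1, β ≤ ψ t)
    (h3 : ∀ t ∈ Icc (0 : ℝ) 1, -K ≤ ψ t) (hα : α ≤ K) :
    q * α + (1 - q) * β - 4 * κ * K ≤ ∫ t in (0 : ℝ)..1, ψ t := by
  have i := fun a b => hψ.intervalIntegrable (μ := volume) a b
  rw [← intervalIntegral.integral_add_adjacent_intervals (i 0 q) (i q 1),
    ← intervalIntegral.integral_add_adjacent_intervals (i 0 κ) (i κ q),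
    ← intervalIntegral.integral_add_adjacent_intervals (i κ (q - κ)) (i (q - κ) q)]
  have a1 := int_ge hψ hκ (c := -K) fun t ht => h3 t ⟨ht.1, by linarith [ht.2]⟩
  have a2 := int_ge hψ (by linarith : κ ≤ q - κ) h1
  have a3 := int_ge hψ (by linarith : q - κ ≤ q) (c := -K) fun t ht => h3 t ⟨by linarith [ht.1], by linarith [ht.2]⟩
  have a4 := int_ge hψ hq1 h2
  nlinarith [mul_le_mul_of_nonneg_left hα hκ]

end Pool.Agent.H.MP_540347_an
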