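import Pool.Agent.H.MP_540347_an.A

set_option autoImplicit false
open scoped Topology
open MeasureTheory Set Filter Complex

namespace Pool.Agent.H.MP_540347_an

lemma trap {q κ : ℝ} (hκ : 0 < κ) (hq : 2 * κ ≤ q) (hq1 : q ≤ 1) :
    ∃ τ : ℝ → ℝ, Continuous τ ∧ Function.Periodic τ 1 ∧ (∀ t, 0 ≤ τ t ∧ τ t ≤ 1) ∧
      (∀ t ∈ Icc κ (q - κ), τ t = 1) ∧ ∀ t ∈ Icc q 1, τ t = 0 := by
  let F : ℝ → ℝ := fun t => max 0 (min 1 (min (t / κ) ((q - t) / κ)))
  have hF : Continuous F := by fun_prop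
  have F0 : F 0 = 0 := by
    apply max_eq_left
    exact (min_le_right _ _).trans ((min_le_left _ _).trans (by simp))
  have F1 : ∀ t, q ≤ t → F t = 0 := by
    intro t ht
    apply max_eq_left
    exact (min_le_right _ _).trans ((min_le_right _ _).trans
      (div_nonpos_of_nonpos_of_nonneg (by linarith) hκ.le))
  refine ⟨F ∘ Int.fract, hF.continuousOn.comp_fract'' (by rw [F0, F1 1 hq1]), ?_, ?_, ?_, ?_⟩
  · intro t; simp
  · intro t
    exact ⟨le_max_left _ _, max_le zero_le_one (min_le_left _ _)⟩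
  · intro t ht
    have : Int.fract t = t := Int.fract_eq_self.2 ⟨by linarith [ht.1], by linarith [ht.2]⟩
    simp only [Function.comp, this, F]
    rw [min_eq_left, max_eq_right zero_le_one]
    refine le_min ?_ ?_
    · rw [le_div_iff₀ hκ]; linarith [ht.1]
    · rw [le_div_iff₀ hκ]; linarith [ht.2]
  · intro t ht
    rcases eq_or_lt_of_le ht.2 with h | h
    · simp [h, F0]
    · have : Int.fract t = t := Int.fract_eq_self.2 ⟨by linarith [ht.1], h⟩
      simp only [Function.comp, this]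
      exact F1 t ht.1

lemma tp {Ψ : ℝ × ℝ → ℝ} (hΨ : Continuous Ψ) {q a b : ℝ} (hq0 : 0 < q) (hq1 : q ≤ 1)
    (hab : q * a = (1 - q) * b) {η : ℝ} (hη : 0 < η) :
    ∃ E : ℂ → ℂ, Differentiable ℂ E ∧ ∀ θ ∈ Icc (0 : ℝ) 1,
      q * Ψ (θ, a) + (1 - q) * Ψ (θ, -b) - η ≤ ∫ t in (0 : ℝ)..1, Ψ (θ, (zc t * E (zc t)).re) := by
  set R := |a| + |b| + 1 with hR
  have ha := le_abs_self a
  have ha' := neg_abs_le a
  have hb := le_abs_self b
  have hb' := neg_abs_le b
  have hR0 : 0 < R := by positivity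
  obtain ⟨K, hK⟩ := (isCompact_Icc.prod isCompact_Icc : IsCompact (Icc (0 : ℝ) 1 ×ˢ Icc (-R) R)).exists_bound_of_continuousOn
    hΨ.continuousOn
  have hK0 : 0 ≤ K := (norm_nonneg _).trans (hK (0, 0) ⟨⟨le_rfl, zero_le_one⟩, ⟨by linarith, hR0.le⟩⟩)
  obtain ⟨δ, hδ, h1⟩ := uc hΨ R (half_pos hη)
  set ε := min δ 1 / 3 with hε
  have hε0 : 0 < ε := by positivity
  have hε1 : 3 * ε ≤ δ := by rw [hε]; linarith [min_le_left δ 1]
  have hε2 : 3 * ε ≤ 1 := by rw [hε]; linarith [min_le_right δ 1]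
  set κ := min (q / 2) (min (ε / (4 * R)) (η / (8 * (K + 1)))) with hκ
  have hκ0 : 0 < κ := by positivity
  have hκ1 : 2 * κ ≤ q := by linarith [min_le_left (q / 2) (min (ε / (4 * R)) (η / (8 * (K + 1))))]
  have hκ2 : 4 * κ * R ≤ ε := by
    have : κ ≤ ε / (4 * R) := (min_le_right _ _).trans (min_le_left _ _)
    rw [le_div_iff₀ (by positivity)] at this
    linarith
  have hκ3 : 4 * κ * K ≤ η / 2 := by
    have : κ ≤ η / (8 * (K + 1)) := (min_le_right _ _).trans (min_le_right _ _)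
    rw [le_div_iff₀ (by positivity)] at this
    nlinarith
  obtain ⟨τ, t1, t2, t3, t4, t5⟩ := trap hκ0 hκ1 hq1
  set f : ℝ → ℝ := fun t => -b + (a + b) * τ t with hf
  have fc : Continuous f := by fun_prop
  have fp : Function.Periodic f 1 := fun t => by simp only [hf, t2 t]
  have fb : ∀ t, -(|a| + |b|) ≤ f t ∧ f t ≤ |a| + |b| := by
    intro t
    obtain ⟨u1, u2⟩ := t3 t
    simp only [hf]
    constructor <;> nlinarith [abs_nonneg a, abs_nonneg b]
  have fa : ∀ t ∈ Icc κ (q - κ), f t = a := fun t ht => by simp only [hf, t4 t ht]; ring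
  have fb' : ∀ t ∈ Icc q 1, f t = -b := fun t ht => by simp only [hf, t5 t ht]; ring
  have hm : |∫ t in (0 : ℝ)..1, f t| ≤ ε := by
    have m1 := sub4 fc hκ0.le hκ1 hq1 (α := a) (β := -b) (K := R) (fun t ht => (fa t ht).ge)
      (fun t ht => (fb' t ht).ge) (fun t _ => by linarith [(fb t).1]) (by linarith [abs_nonneg b])
    have m2 := sub4 fc.neg hκ0.le hκ1 hq1 (α := -a) (β := b) (K := R)
      (fun t ht => by simp [fa t ht]) (fun t ht => by simp [fb' t ht])
      (fun t _ => by simp only [Pi.neg_apply]; linarith [(fb t).2]) (by linarith [abs_nonneg b])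
    simp only [Pi.neg_apply, intervalIntegral.integral_neg] at m2
    rw [abs_le]
    constructor <;> nlinarith
  obtain ⟨E, hE, h2⟩ := approxB0 fc fp hε0 hm
  refine ⟨E, hE, fun θ hθ => ?_⟩
  have ec : Continuous fun t => (zc t * E (zc t)).re := by
    have := hE.continuous
    fun_prop
  have eb : ∀ t, (zc t * E (zc t)).re ∈ Icc (-R) R := by
    intro t
    have := abs_lt.1 (h2 t)
    constructor <;> linarith [this.1, this.2, (fb t).1, (fb t).2]
  have cl : ∀ t, Ψ (θ, f t) - η / 2 ≤ Ψ (θ, (zc t * E (zc t)).re) := by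
    intro t
    have := h1 (θ, (zc t * E (zc t)).re) ⟨hθ, eb t⟩ (θ, f t)
      ⟨hθ, by constructor <;> linarith [(fb t).1, (fb t).2]⟩ (by simpa using hδ)
      ((h2 t).trans_le hε1)
    linarith [(abs_lt.1 this).1]
  have m := sub4 (ψ := fun t => Ψ (θ, (zc t * E (zc t)).re)) (by fun_prop) hκ0.le hκ1 hq1
    (α := Ψ (θ, a) - η / 2) (β := Ψ (θ, -b) - η / 2) (K := K)
    (fun t ht => by have := cl t; rwa [fa t ht] at this)
    (fun t ht => by have := cl t; rwa [fb' t ht] at this)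
    (fun t _ => by
      have := hK (θ, (zc t * E (zc t)).re) ⟨hθ, eb t⟩
      exact (abs_le.1 this).1)
    (by
      have := hK (θ, a) ⟨hθ, by constructor <;> linarith [abs_nonneg b]⟩
      linarith [(abs_le.1 this).2])
  linarith

lemma eqd {Ψ : ℝ × ℝ → ℝ} (hΨ : Continuous Ψ) (hp : ∀ t, Function.Periodic (fun s => Ψ (t, s)) 1)
    {η : ℝ} (hη : 0 < η) : ∃ M0 : ℕ, ∀ M : ℕ, M0 ≤ M →
      (∫ t in (0 : ℝ)..1, ∫ s in (0 : ℝ)..1, Ψ (t, s)) - η ≤ ∫ t in (0 : ℝ)..1, Ψ (t, M * t) := by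
  obtain ⟨δ, hδ, h1⟩ := uc hΨ 1 (half_pos hη)
  have h2 : ∀ t ∈ Icc (0 : ℝ) 1, ∀ t' ∈ Icc (0 : ℝ) 1, |t - t'| < δ → ∀ s, |Ψ (t, s) - Ψ (t', s)| < η / 2 := by
    intro t ht t' ht' h s
    have e : ∀ t, Ψ (t, s) = Ψ (t, Int.fract s) := fun t => by
      have := (hp t).sub_int_mul_eq (x := s) ⌊s⌋
      simp only [mul_one] at this
      exact this.symm
    have hs : Int.fract s ∈ Icc (-1 : ℝ) 1 := ⟨by linarith [Int.fract_nonneg s], (Int.fract_lt_one s).le⟩
    rw [e t, e t']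
    exact h1 (t, _) ⟨ht, hs⟩ (t', _) ⟨ht', hs⟩ h (by simpa using hδ)
  obtain ⟨M0, hM0⟩ := exists_nat_one_div_lt hδ
  refine ⟨M0 + 1, fun M hM => ?_⟩
  have hMp : (0 : ℝ) < M := by exact_mod_cast (by omega : 0 < M)
  have hMδ : 1 / (M : ℝ) < δ := by
    refine lt_of_le_of_lt ?_ hM0
    apply one_div_le_one_div_of_le (by positivity)
    exact_mod_cast hM
  set J : ℝ → ℝ := fun t => ∫ s in (0 : ℝ)..1, Ψ (t, s) with hJ
  have Jc : Continuous J :=
    intervalIntegral.continuous_parametric_intervalIntegral_of_continuous' (f := fun t s => Ψ (t, s)) hΨ _ _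
  have Pc : Continuous fun t : ℝ => Ψ (t, M * t) := by fun_prop
  have key : ∀ j < M, -(η / M) ≤ ∫ t in ((j : ℝ) / M)..(((j + 1 : ℕ) : ℝ) / M), (Ψ (t, M * t) - J t) := by
    intro j hj
    have hj' : ((j + 1 : ℕ) : ℝ) ≤ M := by exact_mod_cast hj
    have hle : (j : ℝ) / M ≤ ((j + 1 : ℕ) : ℝ) / M := by gcongr; omega
    have hdiff : ((j + 1 : ℕ) : ℝ) / M - j / M = 1 / M := by push_cast; ring
    have hj0 : (j : ℝ) / M ∈ Icc (0 : ℝ) 1 := ⟨by positivity, hle.trans ((div_le_one hMp).2 hj')⟩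
    have c1 : Continuous fun t : ℝ => Ψ (j / M, M * t) := by fun_prop
    have a1 : ∫ t in ((j : ℝ) / M)..(((j + 1 : ℕ) : ℝ) / M), (Ψ (j / M, M * t) - (J (j / M) + η)) ≤
        ∫ t in ((j : ℝ) / M)..(((j + 1 : ℕ) : ℝ) / M), (Ψ (t, M * t) - J t) := by
      refine intervalIntegral.integral_mono_on hle ((c1.sub continuous_const).intervalIntegrable _ _)
        ((Pc.sub Jc).intervalIntegrable _ _) fun t ht => ?_
      have ht' : t ∈ Icc (0 : ℝ) 1 := ⟨hj0.1.trans ht.1, ht.2.trans ((div_le_one hMp).2 hj')⟩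
      have hd : |t - j / M| < δ := by
        rw [abs_lt]; constructor <;> linarith [ht.1, ht.2]
      have b1 := (abs_lt.1 (h2 t ht' _ hj0 hd (M * t))).1
      have b2 : J t - J (j / M) ≤ η / 2 := by
        simp only [hJ]
        rw [← intervalIntegral.integral_sub ((by fun_prop : Continuous fun s => Ψ (t, s)).intervalIntegrable _ _)
          ((by fun_prop : Continuous fun s => Ψ ((j : ℝ) / M, s)).intervalIntegrable _ _)]
        have := intervalIntegral.norm_integral_le_of_norm_le_const (a := 0) (b := 1) (C := η / 2)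
          (f := fun s => Ψ (t, s) - Ψ (j / M, s)) (fun s _ => (h2 t ht' _ hj0 hd s).le)
        simp only [sub_zero, abs_one, mul_one, Real.norm_eq_abs] at this
        exact (le_abs_self _).trans this
      linarith
    refine le_trans (le_of_eq ?_) a1
    rw [intervalIntegral.integral_sub (c1.intervalIntegrable _ _) (continuous_const.intervalIntegrable _ _),
      intervalIntegral.integral_const, hdiff,
      intervalIntegral.integral_comp_mul_left (fun s => Ψ ((j : ℝ) / M, s)) hMp.ne',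
      mul_div_cancel₀ _ hMp.ne', mul_div_cancel₀ _ hMp.ne']
    have := (hp (j / M)).intervalIntegral_add_eq (j : ℝ) 0
    push_cast
    rw [this]
    simp only [zero_add, smul_eq_mul, hJ]
    field_simp
    ring
  have hs := intervalIntegral.sum_integral_adjacent_intervals (μ := volume) (f := fun t => Ψ (t, M * t) - J t)
    (a := fun j : ℕ => (j : ℝ) / M) (n := M) (fun k _ => (Pc.sub Jc).intervalIntegrable _ _)
  have h3 := Finset.sum_le_sum (s := Finset.range M) fun j hj => key j (Finset.mem_range.1 hj)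
  rw [hs] at h3
  simp only [Nat.cast_zero, zero_div, div_self hMp.ne', Finset.sum_const, Finset.card_range, nsmul_eq_mul] at h3
  rw [intervalIntegral.integral_sub (Pc.intervalIntegrable _ _) (Jc.intervalIntegrable _ _)] at h3
  have : (M : ℝ) * -(η / M) = -η := by field_simp
  linarith

lemma ent_bd {F : ℂ → ℂ} (hF : Differentiable ℂ F) :
    ∃ B : ℝ, 0 ≤ B ∧ ∀ z : ℂ, ‖z‖ ≤ 1 → ‖F z‖ ≤ B ∧ ‖deriv F z‖ ≤ B := by
  obtain ⟨B1, h1⟩ := (isCompact_closedBall (0 : ℂ) 1).exists_bound_of_continuousOn hF.continuous.continuousOn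
  obtain ⟨B2, h2⟩ := (isCompact_closedBall (0 : ℂ) 1).exists_bound_of_continuousOn
    (hF.contDiff (n := 1)).continuous_deriv_one.continuousOn
  refine ⟨max 0 (max B1 B2), le_max_left _ _, fun z hz => ⟨?_, ?_⟩⟩
  · exact (h1 z (by simpa using hz)).trans ((le_max_left _ _).trans (le_max_right _ _))
  · exact (h2 z (by simpa using hz)).trans ((le_max_right _ _).trans (le_max_right _ _))

lemma db {Q E : ℂ → ℂ} (hQ : Differentiable ℂ Q) (hE : Differentiable ℂ E) :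
    ∃ C : ℝ, 0 ≤ C ∧ ∀ (N M : ℕ), N + 1 ≤ M → ∀ z : ℂ, ‖z‖ ≤ 1 →
      ‖deriv (fun z => z ^ (N + 1) * Q z * E (z ^ M)) z‖ ≤ C * M * ‖z‖ ^ N := by
  obtain ⟨B1, b1, h1⟩ := ent_bd hQ
  obtain ⟨B2, b2, h2⟩ := ent_bd hE
  refine ⟨3 * B1 * B2, by positivity, fun N M hNM z hz => ?_⟩
  have hd : HasDerivAt (fun z => z ^ (N + 1) * Q z * E (z ^ M))
      ((((N + 1 : ℕ) : ℂ) * z ^ N * Q z + z ^ (N + 1) * deriv Q z) * E (z ^ M) +
        z ^ (N + 1) * Q z * (deriv E (z ^ M) * (M * z ^ (M - 1)))) z :=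
    (((hasDerivAt_pow (N + 1) z).mul (hQ z).hasDerivAt).mul
      (HasDerivAt.comp (h := fun x => x ^ M) z (hE (z ^ M)).hasDerivAt (hasDerivAt_pow M z)))
  have hzM : ‖z ^ M‖ ≤ 1 := by rw [norm_pow]; exact pow_le_one₀ (norm_nonneg _) hz
  have hzM' : ‖z ^ (M - 1)‖ ≤ 1 := by rw [norm_pow]; exact pow_le_one₀ (norm_nonneg _) hz
  rw [hd.deriv]
  obtain ⟨q1, q2⟩ := h1 z hz
  obtain ⟨e1, e2⟩ := h2 _ hzM
  have hN : ‖((N + 1 : ℕ) : ℂ)‖ ≤ M := by rw [Complex.norm_natCast]; exact_mod_cast hNM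
  have hM : ‖(M : ℂ)‖ = M := Complex.norm_natCast M
  have hM1 : (1 : ℝ) ≤ M := by exact_mod_cast (by omega : 1 ≤ M)
  have hz1 : ‖z ^ (N + 1)‖ ≤ ‖z‖ ^ N := by
    rw [norm_pow, pow_succ]
    exact mul_le_of_le_one_right (by positivity) hz
  have r0 : 0 ≤ ‖z‖ ^ N := by positivity
  calc _ ≤ ‖(((N + 1 : ℕ) : ℂ) * z ^ N * Q z + z ^ (N + 1) * deriv Q z) * E (z ^ M)‖ +
        ‖z ^ (N + 1) * Q z * (deriv E (z ^ M) * (M * z ^ (M - 1)))‖ := norm_add_le _ _
    _ ≤ (M * ‖z‖ ^ N * B1 + ‖z‖ ^ N * B1) * B2 + ‖z‖ ^ N * B1 * (B2 * (M * 1)) := by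
        gcongr
        · rw [norm_mul]
          gcongr
          refine (norm_add_le _ _).trans ?_
          rw [norm_mul, norm_mul, norm_mul, norm_pow]
          gcongr
        · rw [norm_mul, norm_mul, norm_mul, norm_mul, hM]
          gcongr
    _ ≤ _ := by
        have : ‖z‖ ^ N * B1 * B2 ≤ M * (‖z‖ ^ N * B1 * B2) := le_mul_of_one_le_left (by positivity) hM1
        nlinarith

end Pool.Agent.H.MP_540347_an
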