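import Pool.Agent.H.MP_540347_an.B

set_option autoImplicit false
open scoped Topology
open MeasureTheory Set Filter Complex

namespace Pool.Agent.H.MP_540347_an

def Adm (x0 y0 η : ℝ) (F G : ℂ → ℂ) : Prop :=
  Differentiable ℂ F ∧ Differentiable ℂ G ∧ (F 0).re = x0 ∧ (G 0).re = y0 ∧
  ∃ (ι : Type) (_ : Fintype ι) (W : ι → ℂ → ℂ), (∀ i, Differentiable ℂ (W i)) ∧
    ∀ z : ℂ, ‖z‖ ≤ 1 → ‖deriv G z‖ ^ 2 ≤ ‖deriv F z‖ ^ 2 + ∑ i, ‖deriv (W i) z‖ ^ 2 ∧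
      ∑ i, ‖W i z‖ ^ 2 ≤ η

def RR (x0 y0 c : ℝ) (φ : ℝ × ℝ → ℝ) : Prop :=
  ∀ η > 0, ∃ F G, Adm x0 y0 η F G ∧ c - η ≤ ∫ t in (0 : ℝ)..1, φ ((F (zc t)).re, (G (zc t)).re)

noncomputable def TT (D : ℝ × ℝ → ℝ) (σ q a b : ℝ) (φ : ℝ × ℝ → ℝ) : ℝ × ℝ → ℝ := fun w =>
  q * φ (w.1 + D w * a, w.2 + σ * (D w * a)) + (1 - q) * φ (w.1 + D w * -b, w.2 + σ * (D w * -b))

lemma TT_cont {D : ℝ × ℝ → ℝ} (hD : Continuous D) (σ q a b : ℝ) {φ : ℝ × ℝ → ℝ} (hφ : Continuous φ) :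
    Continuous (TT D σ q a b φ) := by
  unfold TT; fun_prop

def Cl (𝓡 : (ℝ × ℝ → ℝ) → Prop) : Prop :=
  ∀ (φ D : ℝ × ℝ → ℝ) (σ q a b : ℝ), Continuous φ → Continuous D → σ ^ 2 = 1 → 0 < q → q ≤ 1 →
    q * a = (1 - q) * b → 𝓡 (TT D σ q a b φ) → 𝓡 φ

lemma RR_base (x0 y0 : ℝ) (φ : ℝ × ℝ → ℝ) : RR x0 y0 (φ (x0, y0)) φ := by
  intro η hη
  refine ⟨fun _ => x0, fun _ => y0, ⟨by fun_prop, by fun_prop, by simp, by simp, Empty, inferInstance,
    fun _ _ => 0, fun i => i.elim, fun z _ => by simp [hη.le]⟩, ?_⟩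
  simp [hη.le]

lemma RR_mono {x0 y0 c c' : ℝ} {φ : ℝ × ℝ → ℝ} (h : RR x0 y0 c φ) (hc : c' ≤ c) : RR x0 y0 c' φ := by
  intro η hη
  obtain ⟨F, G, h1, h2⟩ := h η hη
  exact ⟨F, G, h1, by linarith⟩

lemma subord (f g h : ℂ) (σ : ℝ) (hσ : σ ^ 2 = 1) (S : ℝ) (hS : ‖g‖ ^ 2 ≤ ‖f‖ ^ 2 + S) :
    ‖g + σ * h‖ ^ 2 ≤ ‖f + h‖ ^ 2 + S + 2 * (‖f‖ + ‖g‖) * ‖h‖ := by
  have h1 : ‖g + σ * h‖ ≤ ‖g‖ + ‖h‖ := by
    refine (norm_add_le _ _).trans ?_
    have : |σ| = 1 := by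
      rw [← sq_abs] at hσ
      nlinarith [abs_nonneg σ]
    rw [norm_mul, Complex.norm_real, Real.norm_eq_abs, this, one_mul]
  have h2 : |‖f‖ - ‖h‖| ≤ ‖f + h‖ := by
    have := abs_norm_sub_norm_le f (-h)
    rwa [norm_neg, sub_neg_eq_add] at this
  have h3 := pow_le_pow_left₀ (abs_nonneg _) h2 2
  rw [sq_abs] at h3
  have h4 := pow_le_pow_left₀ (norm_nonneg _) h1 2
  nlinarith

lemma adm_step {x0 y0 η η' : ℝ} {F G : ℂ → ℂ} (hA : Adm x0 y0 η F G) (hη' : 0 < η') {σ : ℝ}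
    (hσ : σ ^ 2 = 1) {Q E : ℂ → ℂ} (hQ : Differentiable ℂ Q) (hE : Differentiable ℂ E) (D : ℕ) :
    ∃ L0 : ℕ, ∀ L, L0 ≤ L → Adm x0 y0 (η + η') (fun z => F z + z ^ (2 * L + 1) * Q z * E (z ^ (D + (2 * L + 1))))
      (fun z => G z + σ * (z ^ (2 * L + 1) * Q z * E (z ^ (D + (2 * L + 1))))) := by
  obtain ⟨hF, hG, h1, h2, ι, _, W, hW, h3⟩ := hA
  obtain ⟨C, hC, h4⟩ := db hQ hE
  obtain ⟨B1, b1, h5⟩ := ent_bd hF
  obtain ⟨B2, b2, h6⟩ := ent_bd hG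
  obtain ⟨L0, hL0⟩ := exists_nat_ge (2 * (B1 + B2) * C * (D + 2) / η')
  refine ⟨L0, fun L hL => ?_⟩
  have hH : Differentiable ℂ fun z => z ^ (2 * L + 1) * Q z * E (z ^ (D + (2 * L + 1))) := by fun_prop
  refine ⟨by fun_prop, by fun_prop, by simp [h1], by simp [h2], Option ι, inferInstance,
    fun o => o.elim (fun z => (Real.sqrt η' : ℂ) * z ^ (L + 1)) W, ?_, fun z hz => ?_⟩
  · rintro (_ | i)
    · simp only [Option.elim]; fun_prop
    · exact hW i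
  · simp only [Fintype.sum_option, Option.elim]
    obtain ⟨h7, h8⟩ := h3 z hz
    have d1 : deriv (fun z => F z + z ^ (2 * L + 1) * Q z * E (z ^ (D + (2 * L + 1)))) z =
        deriv F z + deriv (fun z => z ^ (2 * L + 1) * Q z * E (z ^ (D + (2 * L + 1)))) z :=
      ((hF z).hasDerivAt.add (hH z).hasDerivAt).deriv
    have d2 : deriv (fun z => G z + σ * (z ^ (2 * L + 1) * Q z * E (z ^ (D + (2 * L + 1))))) z =
        deriv G z + σ * deriv (fun z => z ^ (2 * L + 1) * Q z * E (z ^ (D + (2 * L + 1)))) z :=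
      ((hG z).hasDerivAt.add ((hH z).hasDerivAt.const_mul (σ : ℂ))).deriv
    have d3 : deriv (fun z : ℂ => (Real.sqrt η' : ℂ) * z ^ (L + 1)) z =
        (Real.sqrt η' : ℂ) * (((L + 1 : ℕ) : ℂ) * z ^ L) :=
      ((hasDerivAt_pow (L + 1) z).const_mul _).deriv
    have n3 : ‖(Real.sqrt η' : ℂ) * (((L + 1 : ℕ) : ℂ) * z ^ L)‖ ^ 2 = η' * ((L + 1) ^ 2 * ‖z‖ ^ (2 * L)) := by
      rw [norm_mul, norm_mul, mul_pow, mul_pow, Complex.norm_real, Real.norm_eq_abs, sq_abs,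
        Real.sq_sqrt hη'.le, Complex.norm_natCast, norm_pow, ← pow_mul, mul_comm L 2]
      push_cast; ring
    have n4 : ‖(Real.sqrt η' : ℂ) * z ^ (L + 1)‖ ^ 2 ≤ η' := by
      rw [norm_mul, mul_pow, Complex.norm_real, Real.norm_eq_abs, sq_abs, Real.sq_sqrt hη'.le, norm_pow]
      exact mul_le_of_le_one_right hη'.le (pow_le_one₀ (by positivity) (pow_le_one₀ (norm_nonneg _) hz))
    refine ⟨?_, by linarith⟩
    rw [d1, d2, d3, n3]
    have s := subord _ _ (deriv (fun z => z ^ (2 * L + 1) * Q z * E (z ^ (D + (2 * L + 1)))) z) σ hσ _ h7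
    have h9 := h4 (2 * L) (D + (2 * L + 1)) (by omega) z hz
    have h10 : 2 * (‖deriv F z‖ + ‖deriv G z‖) *
        ‖deriv (fun z => z ^ (2 * L + 1) * Q z * E (z ^ (D + (2 * L + 1)))) z‖ ≤
        2 * (B1 + B2) * (C * ((D + (2 * L + 1) : ℕ) : ℝ) * ‖z‖ ^ (2 * L)) := by
      gcongr
      · exact (h5 z hz).2
      · exact (h6 z hz).2
    have h11 : 2 * (B1 + B2) * C * ((D + (2 * L + 1) : ℕ) : ℝ) ≤ η' * (L + 1) ^ 2 := by
      have e1 : ((D + (2 * L + 1) : ℕ) : ℝ) ≤ (D + 2) * (L + 1) := by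
        push_cast
        nlinarith [Nat.cast_nonneg (α := ℝ) D, Nat.cast_nonneg (α := ℝ) L]
      have e2 : 2 * (B1 + B2) * C * (D + 2) ≤ η' * (L + 1) := by
        rw [div_le_iff₀ hη'] at hL0
        have : (L0 : ℝ) ≤ L := by exact_mod_cast hL
        nlinarith
      calc _ ≤ 2 * (B1 + B2) * C * ((D + 2) * (L + 1)) := by gcongr
        _ = 2 * (B1 + B2) * C * (D + 2) * (L + 1) := by ring
        _ ≤ η' * (L + 1) * (L + 1) := by gcongr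
        _ = _ := by ring
    have h12 := mul_le_mul_of_nonneg_right h11 (pow_nonneg (norm_nonneg z) (2 * L))
    nlinarith

lemma RR_cl (x0 y0 c : ℝ) : Cl (RR x0 y0 c) := by
  intro φ D σ q a b hφ hD hσ hq0 hq1 hab hR η hη
  have hη4 : 0 < η / 4 := by positivity
  obtain ⟨F, G, hA, h1⟩ := hR (η / 4) hη4
  have Fc := hA.1.continuous
  have Gc := hA.2.1.continuous
  set X : ℝ → ℝ := fun t => (F (zc t)).re with hX
  set Y : ℝ → ℝ := fun t => (G (zc t)).re with hY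
  have Xc : Continuous X := by fun_prop
  have Yc : Continuous Y := by fun_prop
  set d0 : ℝ → ℝ := fun t => D (X t, Y t) with hd0
  have dc : Continuous d0 := by fun_prop
  have dp : Function.Periodic d0 1 := fun t => by simp only [hd0, hX, hY, zc_per t]
  set Θ : ℝ × ℝ → ℝ := fun w => q * φ (X w.1 + (d0 w.1 + w.2) * a, Y w.1 + σ * ((d0 w.1 + w.2) * a)) +
    (1 - q) * φ (X w.1 + (d0 w.1 + w.2) * -b, Y w.1 + σ * ((d0 w.1 + w.2) * -b)) with hΘ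
  have Θc : Continuous Θ := by fun_prop
  obtain ⟨δ, hδ, h2⟩ := uc Θc 1 hη4
  obtain ⟨N, Q, d, hQ, hd, h3⟩ := approxA dc dp (lt_min hδ one_pos)
  set Ψ : ℝ × ℝ → ℝ := fun w => φ (X w.1 + d w.1 * w.2, Y w.1 + σ * (d w.1 * w.2)) with hΨ
  have Ψc : Continuous Ψ := by fun_prop
  obtain ⟨E, hE, h4⟩ := tp Ψc hq0 hq1 hab hη4
  have Ec := hE.continuous
  set Φ : ℝ × ℝ → ℝ := fun w => Ψ (w.1, (zc w.2 * E (zc w.2)).re) with hΦ
  have Φc : Continuous Φ := by fun_prop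
  obtain ⟨M0, h5⟩ := eqd Φc (fun t s => by simp only [hΦ, zc_per s]) hη4
  obtain ⟨L0, h6⟩ := adm_step hA (η' := 3 * η / 4) (by positivity) hσ hQ hE N
  have h7 := h6 (max L0 M0) (le_max_left _ _)
  have h8 := h5 (N + (2 * max L0 M0 + 1)) (by have := le_max_right L0 M0; omega)
  rw [show η / 4 + 3 * η / 4 = η by ring] at h7
  refine ⟨_, _, h7, ?_⟩
  set L := max L0 M0
  have e : ∀ t, (zc t ^ (2 * L + 1) * Q (zc t) * E (zc t ^ (N + (2 * L + 1)))).re =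
      d t * (zc (((N + (2 * L + 1) : ℕ) : ℝ) * t) * E (zc (((N + (2 * L + 1) : ℕ) : ℝ) * t))).re := by
    intro t
    rw [zc_mul, (h3 t).1, ← Complex.re_ofReal_mul]
    congr 1
    ring
  have e2 : ∀ t, φ ((F (zc t) + zc t ^ (2 * L + 1) * Q (zc t) * E (zc t ^ (N + (2 * L + 1)))).re,
      (G (zc t) + σ * (zc t ^ (2 * L + 1) * Q (zc t) * E (zc t ^ (N + (2 * L + 1))))).re) =
      Φ (t, ((N + (2 * L + 1) : ℕ) : ℝ) * t) := by
    intro t
    rw [add_re, add_re, Complex.re_ofReal_mul, e]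
  simp only [e2]
  refine le_trans ?_ h8
  have Jc : Continuous fun t => ∫ s in (0 : ℝ)..1, Φ (t, s) :=
    intervalIntegral.continuous_parametric_intervalIntegral_of_continuous' (f := fun t s => Φ (t, s)) Φc _ _
  have Tc : Continuous fun t => TT D σ q a b φ (X t, Y t) := (TT_cont hD σ q a b hφ).comp (by fun_prop)
  have h9 : ∫ t in (0 : ℝ)..1, (TT D σ q a b φ (X t, Y t) - η / 2) ≤ ∫ t in (0 : ℝ)..1, ∫ s in (0 : ℝ)..1, Φ (t, s) := by
    refine intervalIntegral.integral_mono_on zero_le_one ((Tc.sub continuous_const).intervalIntegrable _ _)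
      (Jc.intervalIntegrable _ _) fun t ht => ?_
    have a1 := h4 t ht
    have a2 := (h3 t).2
    have a3 := abs_lt.1 (a2.trans_le (min_le_right _ _))
    have a4 := h2 (t, 0) ⟨ht, by norm_num⟩ (t, d t - d0 t) ⟨ht, ⟨a3.1.le, a3.2.le⟩⟩ (by simpa using hδ)
      (by simpa [abs_sub_comm] using a2.trans_le (min_le_left _ _))
    have a5 : Θ (t, 0) = TT D σ q a b φ (X t, Y t) := by simp [hΘ, TT, hd0]
    have a6 : Θ (t, d t - d0 t) = q * Ψ (t, a) + (1 - q) * Ψ (t, -b) := by simp [hΘ, hΨ]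
    rw [a5, a6] at a4
    have a7 := (abs_lt.1 a4).2
    simp only [hΦ]
    linarith
  rw [intervalIntegral.integral_sub (Tc.intervalIntegrable _ _) (continuous_const.intervalIntegrable _ _)] at h9
  simp only [intervalIntegral.integral_const, sub_zero, smul_eq_mul, one_mul] at h9
  linarith

lemma Cl.swap {𝓡 : (ℝ × ℝ → ℝ) → Prop} (h : Cl 𝓡) : Cl fun φ => 𝓡 (φ ∘ Prod.swap) := by
  intro φ D σ q a b hφ hD hσ hq0 hq1 hab hR
  refine h (φ ∘ Prod.swap) (fun w => σ * D w.swap) σ q a b (by fun_prop) (by fun_prop) hσ hq0 hq1 hab ?_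
  have : TT (fun w => σ * D w.swap) σ q a b (φ ∘ Prod.swap) = TT D σ q a b φ ∘ Prod.swap := by
    funext w
    have e : ∀ x : ℝ, σ * (σ * x) = x := fun x => by
      linear_combination x * hσ
    simp only [TT, Function.comp, Prod.swap_prod_mk, Prod.fst_swap, Prod.snd_swap, mul_assoc, e]
  rw [this]; exact hR

end Pool.Agent.H.MP_540347_an
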