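import Pool.Agent.H.MP_540347_an.C

set_option autoImplicit false
open scoped Topology
open MeasureTheory Set Filter

namespace Pool.Agent.H.MP_540347_an

lemma TT_zero {D : ℝ × ℝ → ℝ} (σ q a b : ℝ) (φ : ℝ × ℝ → ℝ) {w : ℝ × ℝ} (h : D w = 0) :
    TT D σ q a b φ w = φ w := by
  simp only [TT, h, zero_mul, mul_zero, add_zero]; ring

lemma core {p β δ P : ℝ} (hβ0 : 0 < β) (hβ1 : β < 1) (hδ : 0 < δ) (hh : 0 < β * (1 + 2 * δ) - δ)
    {V : ℝ × ℝ → ℝ} (hV : Continuous V)
    (h1 : ∀ t > 0, P * t ^ p ≤ V ((1 - β) * t, β * t)) (h2 : ∀ t > 0, 0 ≤ V ((1 - β) * t, -(β * t)))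
    {α : ℕ → ℝ} (h0 : ∀ t > 0, α 0 * t ^ p ≤ V (t, 0))
    (hα : ∀ n, α (n + 1) ≤ δ / (β + δ) * P +
      (β * (1 + 2 * δ) - δ) / ((β + δ) * (1 + 2 * δ)) * (1 + 2 * δ) ^ p * α n) (n : ℕ) :
    ∃ φ : ℝ × ℝ → ℝ, Continuous φ ∧ (∀ 𝓡, Cl 𝓡 → 𝓡 φ → 𝓡 V) ∧
      (∀ w : ℝ × ℝ, β * w.1 ≤ (1 - β) * |w.2| → φ w = V w) ∧ ∀ t > 0, α n * t ^ p ≤ φ (t, 0) := by
  induction n with
  | zero => exact ⟨V, hV, fun _ _ h => h, fun _ _ => rfl, h0⟩
  | succ n ih =>
    obtain ⟨φ, c1, c2, c3, c4⟩ := ih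
    set h := β * (1 + 2 * δ) - δ with hdef
    let D1 : ℝ × ℝ → ℝ := fun w => max 0 (β * w.1 - (1 - β) * |w.2|) / β
    let D2 : ℝ × ℝ → ℝ := fun w => max 0 (β * w.1 - (1 - β) * |w.2|) / h
    have d1 : Continuous D1 := by fun_prop
    have d2 : Continuous D2 := by fun_prop
    have z1 : ∀ w : ℝ × ℝ, β * w.1 ≤ (1 - β) * |w.2| → D1 w = 0 := fun w hw => by
      simp only [D1]; rw [max_eq_left (by linarith), zero_div]
    have z2 : ∀ w : ℝ × ℝ, β * w.1 ≤ (1 - β) * |w.2| → D2 w = 0 := fun w hw => by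
      simp only [D2]; rw [max_eq_left (by linarith), zero_div]
    have c5 := TT_cont d2 1 (h / (h + δ)) δ h c1
    refine ⟨TT D1 (-1) (β / (β + δ)) δ β (TT D2 1 (h / (h + δ)) δ h φ), TT_cont d1 _ _ _ _ c5, ?_, ?_, ?_⟩
    · intro 𝓡 hC hR
      refine c2 𝓡 hC (hC φ D2 1 (h / (h + δ)) δ h c1 d2 (by norm_num) (by positivity) ?_ ?_
        (hC _ D1 (-1) (β / (β + δ)) δ β c5 d1 (by norm_num) (by positivity) ?_ ?_ hR))
      · rw [div_le_one (by positivity)]; linarith
      · field_simp; ring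
      · rw [div_le_one (by positivity)]; linarith
      · field_simp; ring
    · intro w hw
      rw [TT_zero _ _ _ _ _ (z1 w hw), TT_zero _ _ _ _ _ (z2 w hw), c3 w hw]
    · intro t ht
      have e1 : D1 (t, 0) = t := by
        simp only [D1, abs_zero, mul_zero, sub_zero]
        rw [max_eq_right (by positivity)]; field_simp
      have e2 : D2 (t + t * δ, -(t * δ)) = t := by
        simp only [D2]
        rw [abs_neg, abs_of_pos (by positivity), show β * (t + t * δ) - (1 - β) * (t * δ) = t * h by rw [hdef]; ring,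
          max_eq_right (by positivity)]
        field_simp
      have hs : 0 < (1 + 2 * δ) * t := by positivity
      have f1 : ∀ s > 0, β * ((1 - β) * s) ≤ (1 - β) * |β * s| := fun s hs => by
        rw [abs_of_pos (by positivity)]; exact le_of_eq (by ring)
      have b1 : TT D2 1 (h / (h + δ)) δ h φ ((1 - β) * t, β * t) = V ((1 - β) * t, β * t) := by
        rw [TT_zero _ _ _ _ _ (z2 _ (f1 t ht)), c3 _ (f1 t ht)]
      have b2 : TT D2 1 (h / (h + δ)) δ h φ (t + t * δ, -(t * δ)) = h / (h + δ) * φ ((1 + 2 * δ) * t, 0) +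
          (1 - h / (h + δ)) * V ((1 - β) * ((1 + 2 * δ) * t), -(β * ((1 + 2 * δ) * t))) := by
        rw [← c3 _ (by simpa only [abs_neg] using f1 _ hs)]
        simp only [TT, e2]
        congr 4
        · ring
        · ring
        · rw [hdef]; ring
        · rw [hdef]; ring
      have b3 : TT D1 (-1) (β / (β + δ)) δ β (TT D2 1 (h / (h + δ)) δ h φ) (t, 0) =
          β / (β + δ) * TT D2 1 (h / (h + δ)) δ h φ (t + t * δ, -(t * δ)) +
          (1 - β / (β + δ)) * TT D2 1 (h / (h + δ)) δ h φ ((1 - β) * t, β * t) := by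
        rw [TT]
        simp only [e1]
        congr 4
        · ring
        · ring
        · ring
      rw [b3, b1, b2]
      have g1 := c4 _ hs
      have g2 := h2 _ hs
      have g3 := h1 t ht
      have g4 : (1 - β / (β + δ)) = δ / (β + δ) := by field_simp; ring
      have g5 : 0 ≤ 1 - h / (h + δ) := by rw [sub_nonneg, div_le_one (by positivity)]; linarith
      have g6 : β / (β + δ) * (h / (h + δ)) = h / ((β + δ) * (1 + 2 * δ)) := by
        rw [show h + δ = β * (1 + 2 * δ) by rw [hdef]; ring]; field_simp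
      rw [Real.mul_rpow (by positivity) ht.le] at g1
      have tp0 : 0 < t ^ p := Real.rpow_pos_of_pos ht p
      calc α (n + 1) * t ^ p ≤ (δ / (β + δ) * P + h / ((β + δ) * (1 + 2 * δ)) * (1 + 2 * δ) ^ p * α n) * t ^ p :=
            mul_le_mul_of_nonneg_right (hα n) tp0.le
        _ = β / (β + δ) * (h / (h + δ) * (α n * ((1 + 2 * δ) ^ p * t ^ p)) + 0) + δ / (β + δ) * (P * t ^ p) := by
            rw [← g6]; ring
        _ ≤ _ := by
            rw [g4]
            gcongr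
            positivity

noncomputable def VV (p c : ℝ) : ℝ × ℝ → ℝ := fun w => |w.2| ^ p - c ^ p * |w.1| ^ p

lemma VV_cont {p : ℝ} (hp : 0 ≤ p) (c : ℝ) : Continuous (VV p c) := by
  unfold VV
  exact ((continuous_snd.abs).rpow_const fun _ => Or.inr hp).sub
    (continuous_const.mul ((continuous_fst.abs).rpow_const fun _ => Or.inr hp))

lemma small (A B : ℝ) (hA : 0 < A) (hB : 0 ≤ B) : ∃ δ : ℝ, 0 < δ ∧ δ ≤ 1 ∧ δ * B < A := by
  refine ⟨min 1 (A / (B + 1)), by positivity, min_le_left _ _, ?_⟩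
  have : min 1 (A / (B + 1)) ≤ A / (B + 1) := min_le_right _ _
  rw [le_div_iff₀ (by positivity)] at this
  have h2 : 0 < min 1 (A / (B + 1)) := by positivity
  nlinarith

lemma case1 {p c : ℝ} (hp : 1 < p) (hc0 : 0 ≤ c) (hc : c < p - 1) :
    ∃ x0 y0 a : ℝ, |y0| ≤ |x0| ∧ 0 < a ∧ RR x0 y0 a (VV p c) := by
  set γ := (c + p - 1) / 2 with hγ
  have γ0 : 0 < γ := by linarith
  set β := 1 / (γ + 1) with hβ
  have hβ0 : 0 < β := by positivity
  have hβ1 : β < 1 := by rw [hβ, div_lt_one (by positivity)]; linarith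
  have hβγ : 1 - β = γ * β := by rw [hβ]; field_simp; ring
  have hpβ : 1 < p * β := by
    rw [hβ, mul_one_div, one_lt_div (by positivity)]; linarith
  obtain ⟨δ, hδ, hδ1, hδ2⟩ := small (min β (2 * p * β - 2)) (2 + 2 * p) (lt_min hβ0 (by linarith)) (by linarith)
  have hδ3 := hδ2.trans_le (min_le_left _ _)
  have hδ4 := hδ2.trans_le (min_le_right _ _)
  have hh : 0 < β * (1 + 2 * δ) - δ := by nlinarith
  set ρ := (β * (1 + 2 * δ) - δ) / ((β + δ) * (1 + 2 * δ)) * (1 + 2 * δ) ^ p with hρ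
  have hρ1 : 1 < ρ := by
    have b := one_add_mul_self_le_rpow_one_add (s := 2 * δ) (by linarith) hp.le
    refine lt_of_lt_of_le ?_ (mul_le_mul_of_nonneg_left b (by positivity))
    rw [div_mul_eq_mul_div, one_lt_div (by positivity)]
    nlinarith [mul_pos hδ (sub_pos.2 hδ4), mul_pos (mul_pos hδ hδ) (mul_pos hβ0 (by linarith : 0 < p))]
  have hV := VV_cont (by linarith : 0 ≤ p) c
  have term : ∀ t > 0, ∀ y : ℝ, |y| = β * t → 0 ≤ (VV p c ∘ Prod.swap) ((1 - β) * t, y) := by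
    intro t ht y hy
    simp only [Function.comp, VV, Prod.swap_prod_mk, hy]
    rw [abs_of_pos (by nlinarith), sub_nonneg, ← Real.mul_rpow hc0 (by positivity), hβγ]
    apply Real.rpow_le_rpow (by positivity) _ (by linarith)
    nlinarith [mul_pos hβ0 ht]
  obtain ⟨n, hn⟩ := ((tendsto_pow_atTop_atTop_of_one_lt hρ1).eventually_gt_atTop (c ^ p)).exists
  obtain ⟨φ, c1, c2, c3, c4⟩ := core (p := p) (P := 0) hβ0 hβ1 hδ hh (V := VV p c ∘ Prod.swap) (by fun_prop)
    (fun t ht => by rw [zero_mul]; exact term t ht _ (abs_of_pos (by positivity)))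
    (fun t ht => term t ht _ (by rw [abs_neg, abs_of_pos (by positivity)]))
    (α := fun n => ρ ^ n) (fun t ht => by
      simp [VV, abs_of_pos ht, Real.zero_rpow (by linarith : p ≠ 0)])
    (fun n => by rw [mul_zero, zero_add, ← hρ, pow_succ']) n
  refine ⟨1, 1, (ρ ^ n - c ^ p) * 2 ^ p / 2, le_rfl, by
    have := sub_pos.2 hn
    positivity, ?_⟩
  have C := (RR_cl 1 1 ((ρ ^ n - c ^ p) * 2 ^ p / 2)).swap
  have r1 := RR_base 1 1 (TT (fun _ => 1) (-1) (1 / 2) 1 1 φ ∘ Prod.swap)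
  have r2 := C φ (fun _ => 1) (-1) (1 / 2) 1 1 c1 continuous_const (by norm_num) (by norm_num) (by norm_num)
    (by norm_num) (RR_mono r1 (by
      simp only [Function.comp, Prod.swap_prod_mk, TT]
      have u1 := c4 2 two_pos
      have u2 := c3 (0, 2) (by simp; linarith)
      norm_num
      rw [u2]
      simp only [Function.comp, VV, Prod.swap_prod_mk, abs_zero, Real.zero_rpow (by linarith : p ≠ 0), abs_two]
      linarith))
  exact c2 _ C r2

lemma case2 {p c : ℝ} (hp : 1 < p) (hc0 : 0 ≤ c) (hc : c * (p - 1) < 1) :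
    ∃ x0 y0 a : ℝ, |y0| ≤ |x0| ∧ 0 < a ∧ RR x0 y0 a (VV p c) := by
  have hp1 : 0 < p - 1 := by linarith
  set γ := (c + 1 / (p - 1)) / 2 with hγ
  have hc' : c < 1 / (p - 1) := by rwa [lt_div_iff₀ hp1]
  have γc : c < γ := by linarith
  have γ0 : 0 < γ := by linarith
  have γ1 : γ * (p - 1) < 1 := by
    rw [← lt_div_iff₀ hp1]; linarith
  set k := 1 / (γ + 1) with hk
  have k0 : 0 < k := by positivity
  set β := γ * k with hβ
  have hβ0 : 0 < β := by positivity
  have hβk : 1 - β = k := by rw [hβ, hk]; field_simp; ring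
  have hβ1 : β < 1 := by linarith
  have hpβ : p * β < 1 := by
    rw [hβ, hk, ← mul_assoc, mul_one_div, div_lt_one (by positivity)]; linarith
  obtain ⟨δ, hδ, hδ1, hδ2⟩ := small (min β (2 - 2 * p * β)) (10 * p) (lt_min hβ0 (by linarith)) (by linarith)
  have hδ3 := hδ2.trans_le (min_le_left _ _)
  have hδ4 := hδ2.trans_le (min_le_right _ _)
  have hh : 0 < β * (1 + 2 * δ) - δ := by nlinarith
  set ρ := (β * (1 + 2 * δ) - δ) / ((β + δ) * (1 + 2 * δ)) * (1 + 2 * δ) ^ p with hρ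
  have hρ0 : 0 ≤ ρ := by positivity
  have hρ1 : ρ < 1 := by
    have s1 : 0 < 1 - 2 * p * δ := by nlinarith
    have b := one_add_mul_self_le_rpow_one_add (s := -(2 * δ / (1 + 2 * δ))) (by
      rw [neg_le_neg_iff, div_le_one (by positivity)]; linarith) hp.le
    rw [show 1 + -(2 * δ / (1 + 2 * δ)) = (1 + 2 * δ)⁻¹ by field_simp; ring, Real.inv_rpow (by positivity)] at b
    have b2 : 1 - 2 * p * δ ≤ ((1 + 2 * δ) ^ p)⁻¹ := by
      refine le_trans ?_ b
      have : 2 * δ / (1 + 2 * δ) ≤ 2 * δ := div_le_self (by positivity) (by linarith)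
      nlinarith
    have b3 : (1 + 2 * δ) ^ p ≤ (1 - 2 * p * δ)⁻¹ := by
      rwa [le_inv_comm₀ (by positivity) s1]
    refine lt_of_le_of_lt (mul_le_mul_of_nonneg_left b3 (by positivity)) ?_
    rw [← div_eq_mul_inv, div_div, div_lt_one (by positivity)]
    have p0 : 0 < p := by linarith
    have u1 : 0 ≤ δ * δ * p * (1 - β) := by positivity
    have u2 : 0 ≤ δ * δ * p * (1 - δ) := mul_nonneg (by positivity) (by linarith)
    nlinarith [mul_pos hδ (sub_pos.2 hδ4), mul_pos hδ hδ]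
  have hV := VV_cont (by linarith : 0 ≤ p) c
  set P := (γ ^ p - c ^ p) * k ^ p with hP
  have P0 : 0 < P := mul_pos (sub_pos.2 (Real.rpow_lt_rpow hc0 γc (by linarith))) (by positivity)
  have term : ∀ t > 0, ∀ y : ℝ, |y| = β * t → VV p c ((1 - β) * t, y) = P * t ^ p := by
    intro t ht y hy
    simp only [VV, hy]
    rw [hβk, abs_of_pos (by positivity), hβ, hP, Real.mul_rpow (by positivity) ht.le,
      Real.mul_rpow γ0.le k0.le, Real.mul_rpow k0.le ht.le]
    ring
  have lim : Tendsto (fun n : ℕ => ρ ^ n * c ^ p) atTop (𝓝 0) := by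
    simpa using (tendsto_pow_atTop_nhds_zero_of_lt_one hρ0 hρ1).mul_const (c ^ p)
  have Q0 : 0 < δ / (β + δ) * P := by positivity
  obtain ⟨n, hn, hn1⟩ := ((lim.eventually (gt_mem_nhds Q0)).and (eventually_ge_atTop 1)).exists
  obtain ⟨φ, c1, c2, c3, c4⟩ := core (p := p) (P := P) hβ0 hβ1 hδ hh (V := VV p c) hV
    (fun t ht => (term t ht _ (abs_of_pos (by positivity))).ge)
    (fun t ht => by
      rw [term t ht _ (by rw [abs_neg, abs_of_pos (by positivity)])]
      positivity)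
    (α := fun n => (if n = 0 then 0 else δ / (β + δ) * P) - ρ ^ n * c ^ p) (fun t ht => by
      simp [VV, abs_of_pos ht, Real.zero_rpow (by linarith : p ≠ 0)])
    (fun n => by
      rw [← hρ, if_neg (by omega), pow_succ']
      have : 0 ≤ ρ * (if n = 0 then 0 else δ / (β + δ) * P) := by
        split_ifs <;> positivity
      nlinarith) n
  refine ⟨1, 0, δ / (β + δ) * P - ρ ^ n * c ^ p, by simp, by linarith, ?_⟩
  refine c2 _ (RR_cl _ _ _) (RR_mono (RR_base 1 0 φ) ?_)
  have := c4 1 one_pos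
  rw [if_neg (by omega)] at this
  simpa using this

lemma cases12 {p c : ℝ} (hp : 1 < p) (hc0 : 0 ≤ c) (hc : c < max p (p / (p - 1)) - 1) :
    ∃ x0 y0 a : ℝ, |y0| ≤ |x0| ∧ 0 < a ∧ RR x0 y0 a (VV p c) := by
  rw [lt_sub_iff_add_lt, lt_max_iff] at hc
  rcases hc with h | h
  · exact case1 hp hc0 (by linarith)
  · refine case2 hp hc0 ?_
    rw [lt_div_iff₀ (by linarith)] at h
    linarith

end Pool.Agent.H.MP_540347_an
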