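import Pool.Agent.H.MP_540347_an.D

set_option autoImplicit false
open scoped Topology
open MeasureTheory Set Filter InnerProductSpace

namespace Pool.Agent.H.MP_540347_an

lemma harm_iso {E E' F : Type} [NormedAddCommGroup E] [InnerProductSpace ℝ E] [FiniteDimensional ℝ E]
    [NormedAddCommGroup E'] [InnerProductSpace ℝ E'] [FiniteDimensional ℝ E']
    [NormedAddCommGroup F] [NormedSpace ℝ F] (e : E ≃ₗᵢ[ℝ] E') {f : E' → F} {x : E}
    (h : HarmonicAt f (e x)) : HarmonicAt (f ∘ e) x := by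
  refine ⟨h.1.comp x e.toContinuousLinearEquiv.contDiff.contDiffAt, ?_⟩
  have h2 : Laplacian.laplacian (f ∘ e) = Laplacian.laplacian f ∘ e := by
    rw [laplacian_eq_iteratedFDeriv_orthonormalBasis _ (stdOrthonormalBasis ℝ E),
      laplacian_eq_iteratedFDeriv_orthonormalBasis _ ((stdOrthonormalBasis ℝ E).map e)]
    funext y
    simp only [Function.comp]
    refine Finset.sum_congr rfl fun i _ => ?_
    have := e.toContinuousLinearEquiv.iteratedFDerivWithin_comp_right f uniqueDiffOn_univ (x := y) (mem_univ _) 2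
    rw [preimage_univ, iteratedFDerivWithin_univ, iteratedFDerivWithin_univ] at this
    have h3 : iteratedFDeriv ℝ 2 (f ∘ e) y = _ := this
    rw [h3, ContinuousMultilinearMap.compContinuousLinearMap_apply]
    congr 1
    funext j
    fin_cases j <;> simp
  rw [h2]
  exact h.2.comp_tendsto e.continuous.continuousAt

lemma maxp {g : ℂ → ℝ} (hg : HarmonicOnNhd g univ) (h : ∀ t, g (zc t) ≤ 0) {z : ℂ} (hz : ‖z‖ ≤ 1) :
    g z ≤ 0 := by
  obtain ⟨Φ, h1, h2⟩ := hg.exists_analyticOnNhd_univ_re_eq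
  have hd : Differentiable ℂ fun z => Complex.exp (Φ z) :=
    Complex.differentiable_exp.comp fun z => (h1 z (mem_univ _)).differentiableAt
  have h3 := Complex.norm_le_of_forall_mem_frontier_norm_le (U := Metric.ball 0 1) (C := 1) Metric.isBounded_ball
    hd.diffContOnCl (z := z) (fun w hw => by
      rw [frontier_ball _ one_ne_zero, mem_sphere_zero_iff_norm] at hw
      have e : zc (Complex.arg w / (2 * Real.pi)) = w := by
        have := Complex.norm_mul_exp_arg_mul_I w
        rw [hw, Complex.ofReal_one, one_mul] at this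
        conv_rhs => rw [← this]
        unfold zc
        congr 1
        push_cast
        field_simp
      rw [Complex.norm_exp, Real.exp_le_one_iff]
      have := h (Complex.arg w / (2 * Real.pi))
      rw [e, ← h2] at this
      exact this)
    (by rw [closure_ball _ one_ne_zero]; simpa using hz)
  rw [Complex.norm_exp, Real.exp_le_one_iff] at h3
  rw [← h2]; exact h3

lemma tang {p m s : ℝ} (hp : 1 < p) (hm : 0 ≤ m) (hs : 0 ≤ s) :
    m ^ p + p * m ^ (p - 1) * (s - m) ≤ s ^ p := by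
  rcases hm.eq_or_lt with rfl | hm
  · rw [Real.zero_rpow (by linarith), Real.zero_rpow (by linarith)]
    simp; positivity
  · have b := one_add_mul_self_le_rpow_one_add (s := s / m - 1) (by
      have : 0 ≤ s / m := by positivity
      linarith) hp.le
    rw [add_sub_cancel, Real.div_rpow hs hm.le, le_div_iff₀ (by positivity)] at b
    refine le_trans (le_of_eq ?_) b
    rw [Real.rpow_sub_one hm.ne']
    field_simp

lemma major {H : Type} [NormedAddCommGroup H] [InnerProductSpace ℝ H] {u : ℂ → H}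
    (hu : HarmonicOnNhd u univ) {p : ℝ} (hp : 1 < p) {ε : ℝ} (hε : 0 < ε) :
    ∃ h : ℂ → ℝ, HarmonicOnNhd h univ ∧ (∀ z, ‖z‖ ≤ 1 → ‖u z‖ ^ p ≤ h z) ∧
      h 0 ≤ (∫ t in (0 : ℝ)..1, ‖u (zc t)‖ ^ p) + 2 * ε := by
  have uc : Continuous u := continuousOn_univ.1 hu.continuousOn
  have fc : Continuous fun t => ‖u (zc t)‖ ^ p :=
    (uc.comp zc_cont).norm.rpow_const fun _ => Or.inr (by linarith)
  obtain ⟨P, hP, h1⟩ := approxB fc (fun t => by simp only [zc_per t]) hε
  have hh : HarmonicOnNhd (fun z => (P z).re + ε) univ := fun z _ =>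
    (hP.analyticAt z).harmonicAt_re.add (harmonicAt_const ε)
  refine ⟨fun z => (P z).re + ε, hh, fun z hz => ?_, ?_⟩
  · set m := ‖u z‖ with hm
    obtain ⟨e, e1, e2⟩ : ∃ e : H, ‖e‖ ≤ 1 ∧ inner ℝ e (u z) = m := by
      by_cases h0 : u z = 0
      · exact ⟨0, by simp, by simp [hm, h0]⟩
      · refine ⟨m⁻¹ • u z, ?_, ?_⟩
        · rw [norm_smul, norm_inv, norm_norm, inv_mul_cancel₀ (norm_ne_zero_iff.2 h0)]
        · rw [real_inner_smul_left, real_inner_self_eq_norm_sq, ← hm]
          have : m ≠ 0 := norm_ne_zero_iff.2 h0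
          field_simp
    have g1 : HarmonicOnNhd (fun w => m ^ p + p * m ^ (p - 1) * (inner ℝ e (u w) - m) - ((P w).re + ε)) univ := by
      intro w hw
      have a1 : HarmonicAt (fun w => inner ℝ e (u w)) w := (hu w hw).comp_CLM (innerSL ℝ e)
      exact ((harmonicAt_const (m ^ p)).add
        ((a1.sub (harmonicAt_const m)).const_smul (c := p * m ^ (p - 1)))).sub (hh w hw)
    have g2 := maxp g1 (fun t => by
      have a1 := tang hp (norm_nonneg (u z)) (norm_nonneg (u (zc t)))
      have a2 : inner ℝ e (u (zc t)) ≤ ‖u (zc t)‖ :=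
        (real_inner_le_norm _ _).trans (mul_le_of_le_one_left (norm_nonneg _) e1)
      have a3 := (abs_lt.1 (h1 t)).1
      have a4 : 0 ≤ p * m ^ (p - 1) := by positivity
      have a5 := mul_le_mul_of_nonneg_left (sub_le_sub_right a2 m) a4
      linarith) hz
    simp only [e2, sub_self, mul_zero, add_zero] at g2
    linarith
  · simp only
    rw [← mean_re hP]
    have Pc : Continuous fun t => (P (zc t)).re := by
      have := hP.continuous
      fun_prop
    have := intervalIntegral.integral_mono_on (μ := volume) (f := fun t => (P (zc t)).re)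
      (g := fun t => ‖u (zc t)‖ ^ p + ε) zero_le_one (Pc.intervalIntegrable _ _)
      ((fc.add continuous_const).intervalIntegrable _ _) (fun t _ => by linarith [(abs_lt.1 (h1 t)).2])
    rw [intervalIntegral.integral_add (fc.intervalIntegrable _ _) (continuous_const.intervalIntegrable _ _)] at this
    simp only [intervalIntegral.integral_const, sub_zero, smul_eq_mul, one_mul] at this
    linarith

lemma minor {g f : ℂ → ℝ} (hg : HarmonicOnNhd g (Metric.ball 0 1)) (hf : Continuous f)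
    (h : ∀ z, ‖z‖ < 1 → f z ≤ g z) : ∫ t in (0 : ℝ)..1, f (zc t) ≤ g 0 := by
  have Jc : Continuous fun r : ℝ => ∫ t in (0 : ℝ)..1, f (r * zc t) :=
    intervalIntegral.continuous_parametric_intervalIntegral_of_continuous' (f := fun (r : ℝ) t => f (r * zc t))
      (by fun_prop) _ _
  have h1 : Tendsto (fun r : ℝ => ∫ t in (0 : ℝ)..1, f (r * zc t)) (𝓝[<] 1) (𝓝 (∫ t in (0 : ℝ)..1, f (zc t))) := by
    have := (Jc.tendsto 1).mono_left (nhdsWithin_le_nhds (s := Iio 1))
    simpa using this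
  refine le_of_tendsto h1 ?_
  filter_upwards [Ioo_mem_nhdsLT (zero_lt_one' ℝ)] with r hr
  have hg' := hg.mono (Metric.closedBall_subset_ball hr.2)
  rw [← mean_harm hr.1.le hg']
  have n : ∀ t, ‖(r : ℂ) * zc t‖ = r := fun t => by
    rw [norm_mul, zc_norm, Complex.norm_real, Real.norm_eq_abs, abs_of_pos hr.1, mul_one]
  refine intervalIntegral.integral_mono_on zero_le_one
    ((by fun_prop : Continuous fun t => f (r * zc t)).intervalIntegrable _ _) ?_ fun t _ => h _ (by rw [n]; exact hr.2)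
  refine Continuous.intervalIntegrable ?_ _ _
  exact hg.continuousOn.comp_continuous (by fun_prop) fun t => by
    rw [mem_ball_zero_iff, n]; exact hr.2

abbrev HH (ι : Type) := PiLp 2 (fun _ : Option ι => ℂ)

noncomputable def LL (ι : Type) [Fintype ι] : (Option ι → ℂ) →L[ℝ] HH ι :=
  LinearMap.toContinuousLinearMap
    { toFun := fun w => WithLp.toLp 2 fun o => o.elim ((w none).re : ℂ) fun i => w (some i)
      map_add' := fun a b => by
        ext o; cases o <;> simp
      map_smul' := fun c a => by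
        ext o; cases o <;> simp }

lemma LL_norm {ι : Type} [Fintype ι] (w : Option ι → ℂ) :
    ‖LL ι w‖ ^ 2 = (w none).re ^ 2 + ∑ i, ‖w (some i)‖ ^ 2 := by
  rw [PiLp.norm_sq_eq_of_L2, Fintype.sum_option]
  simp [LL]

noncomputable def UU {ι : Type} [Fintype ι] (F : ℂ → ℂ) (W : ι → ℂ → ℂ) (z : ℂ) : HH ι :=
  LL ι fun o => o.elim (F z) fun i => W i z

lemma UU_norm {ι : Type} [Fintype ι] (F : ℂ → ℂ) (W : ι → ℂ → ℂ) (z : ℂ) :
    ‖UU F W z‖ ^ 2 = (F z).re ^ 2 + ∑ i, ‖W i z‖ ^ 2 := by
  rw [UU, LL_norm]; rfl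

lemma vec_deriv {ι : Type} [Fintype ι] {F : ℂ → ℂ} {W : ι → ℂ → ℂ} (hF : Differentiable ℂ F)
    (hW : ∀ i, Differentiable ℂ (W i)) (z : ℂ) :
    HasDerivAt (fun z => fun o : Option ι => o.elim (F z) fun i => W i z)
      (fun o : Option ι => o.elim (deriv F z) fun i => deriv (W i) z) z := by
  rw [hasDerivAt_pi]
  rintro (_ | i)
  · exact (hF z).hasDerivAt
  · exact (hW i z).hasDerivAt

lemma UU_harm {ι : Type} [Fintype ι] {F : ℂ → ℂ} {W : ι → ℂ → ℂ} (hF : Differentiable ℂ F)
    (hW : ∀ i, Differentiable ℂ (W i)) : HarmonicOnNhd (UU F W) univ := by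
  intro z _
  have h : Differentiable ℂ (fun z => fun o : Option ι => o.elim (F z) fun i => W i z) :=
    fun z => (vec_deriv hF hW z).differentiableAt
  exact (h.analyticAt z).harmonicAt.comp_CLM (LL ι)

noncomputable def ζ : EuclideanSpace ℝ (Fin 2) ≃ₗᵢ[ℝ] ℂ := Complex.orthonormalBasisOneI.repr.symm

lemma UU_grad {ι : Type} [Fintype ι] {F : ℂ → ℂ} {W : ι → ℂ → ℂ} (hF : Differentiable ℂ F)
    (hW : ∀ i, Differentiable ℂ (W i)) (x : EuclideanSpace ℝ (Fin 2)) :
    ∑ j : Fin 2, ‖fderiv ℝ (UU F W ∘ ζ) x (EuclideanSpace.single j (1 : ℝ))‖ ^ 2 =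
      ‖deriv F (ζ x)‖ ^ 2 + 2 * ∑ i, ‖deriv (W i) (ζ x)‖ ^ 2 := by
  have h1 := ((vec_deriv hF hW (ζ x)).hasFDerivAt.restrictScalars ℝ)
  have h2 := ((LL ι).hasFDerivAt.comp _ h1).comp x ζ.toContinuousLinearEquiv.hasFDerivAt
  have h3 : fderiv ℝ (UU F W ∘ ζ) x = _ := h2.fderiv
  have e0 : ζ (EuclideanSpace.single 0 (1 : ℝ)) = 1 := by simp [ζ]
  have e1 : ζ (EuclideanSpace.single 1 (1 : ℝ)) = Complex.I := by simp [ζ]
  rw [h3, Fin.sum_univ_two]
  simp only [ContinuousLinearMap.comp_apply, ContinuousLinearMap.coe_restrictScalars',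
    ContinuousLinearEquiv.coe_coe, LinearIsometryEquiv.coe_toContinuousLinearEquiv, e0, e1,
    ContinuousLinearMap.toSpanSingleton_apply, LL_norm, Pi.smul_apply, Option.elim, smul_eq_mul, one_mul,
    norm_mul, Complex.norm_I, Complex.I_mul_re]
  rw [Complex.sq_norm, Complex.normSq_apply]
  ring

lemma split {p τ x s y : ℝ} (hp : 0 ≤ p) (hτ : 0 < τ) (hx : 0 ≤ x) (hs : 0 ≤ s) (hy : 0 ≤ y)
    (h : y ≤ x + s) : y ^ p ≤ ((1 + τ) * x) ^ p + ((1 + 1 / τ) * s) ^ p := by
  rcases le_total s (τ * x) with h1 | h1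
  · exact le_add_of_le_of_nonneg (Real.rpow_le_rpow hy (by linarith) hp) (by positivity)
  · refine le_add_of_nonneg_of_le (by positivity) (Real.rpow_le_rpow hy ?_ hp)
    have : x ≤ 1 / τ * s := by
      rw [one_div, ← div_eq_inv_mul, le_div_iff₀ hτ]; linarith
    linarith

theorem main (p : ℝ) (hp : 1 < p) (c : ℝ) (hc0 : 0 ≤ c) (hc : c < max p (p / (p - 1)) - 1) :
      ∃ (n : ℕ) (H : Type) (_ : NormedAddCommGroup H) (_ : InnerProductSpace ℝ H)
        (_ : CompleteSpace H)
        (D : Set (EuclideanSpace ℝ (Fin n))) (x₀ : EuclideanSpace ℝ (Fin n))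
        (u v : EuclideanSpace ℝ (Fin n) → H),
        IsOpen D ∧ IsConnected D ∧ x₀ ∈ D ∧
        InnerProductSpace.HarmonicOnNhd u D ∧ InnerProductSpace.HarmonicOnNhd v D ∧
        (∀ x ∈ D,
          ∑ i : Fin n, ‖fderiv ℝ v x (EuclideanSpace.single i (1 : ℝ))‖ ^ 2 ≤
            ∑ i : Fin n, ‖fderiv ℝ u x (EuclideanSpace.single i (1 : ℝ))‖ ^ 2) ∧
        ‖v x₀‖ ≤ ‖u x₀‖ ∧
        ∃ h : EuclideanSpace ℝ (Fin n) → ℝ,
          InnerProductSpace.HarmonicOnNhd h D ∧ (∀ x ∈ D, ‖u x‖ ^ p ≤ h x) ∧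
          ∃ ε : ℝ, 0 < ε ∧
            ∀ g : EuclideanSpace ℝ (Fin n) → ℝ,
              InnerProductSpace.HarmonicOnNhd g D →
              (∀ x ∈ D, ‖v x‖ ^ p ≤ g x) →
              c ^ p * h x₀ + ε ≤ g x₀ := by
  obtain ⟨c', hc1, hc2⟩ := exists_between hc
  obtain ⟨x0, y0, a, hxy, ha, hR⟩ := cases12 hp (hc0.trans hc1.le) hc2
  have p0 : 0 ≤ p := by linarith
  set τ := (c' - c) / (c + 1) with hτ
  have τ0 : 0 < τ := div_pos (by linarith) (by linarith)
  have τ1 : c * (1 + τ) ≤ c' := by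
    have : τ * (c + 1) = c' - c := by rw [hτ]; field_simp
    nlinarith
  obtain ⟨s, s0, hs⟩ : ∃ s : ℝ, 0 < s ∧ s ^ 2 + c ^ p * ((1 + 1 / τ) * s) ^ p < a / 2 := by
    have k : Continuous fun s : ℝ => s ^ 2 + c ^ p * ((1 + 1 / τ) * s) ^ p :=
      (continuous_pow 2).add (continuous_const.mul
        ((continuous_const.mul continuous_id).rpow_const fun _ => Or.inr p0))
    have k2 := ((k.tendsto 0).mono_left (nhdsWithin_le_nhds (s := Ioi 0))).eventually
      (gt_mem_nhds (a := a / 2) (by simp [Real.zero_rpow (by linarith : p ≠ 0), ha]))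
    obtain ⟨s, h1, h2⟩ := (k2.and self_mem_nhdsWithin).exists
    exact ⟨s, h2, h1⟩
  obtain ⟨F, G, ⟨hF, hG, f0, g0, ι, _, W, hW, h1⟩, h2⟩ := hR (s ^ 2) (by positivity)
  have hW0 : ∀ _ : ι, Differentiable ℂ (fun _ : ℂ => (0 : ℂ)) := fun _ => by fun_prop
  have cp : 0 ≤ c ^ p := by positivity
  obtain ⟨h, k1, k2, k3⟩ := major (UU_harm hF hW) hp (ε := a / (8 * (c ^ p + 1))) (by positivity)
  have vn : ∀ z, ‖UU G (fun (_ : ι) _ => 0) z‖ = |(G z).re| := fun z => by
    rw [← sq_eq_sq₀ (norm_nonneg _) (abs_nonneg _), UU_norm]; simp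
  have nz : ∀ x ∈ Metric.ball (0 : EuclideanSpace ℝ (Fin 2)) 1, ‖ζ x‖ ≤ 1 := fun x hx => by
    rw [ζ.norm_map]; exact (mem_ball_zero_iff.1 hx).le
  refine ⟨2, HH ι, inferInstance, inferInstance, inferInstance, Metric.ball 0 1, 0, UU F W ∘ ζ,
    UU G (fun _ _ => 0) ∘ ζ, Metric.isOpen_ball, (convex_ball _ _).isConnected ⟨0, by simp⟩, by simp,
    fun x _ => harm_iso ζ (UU_harm hF hW _ (mem_univ _)), fun x _ => harm_iso ζ (UU_harm hG hW0 _ (mem_univ _)),
    fun x hx => ?_, ?_, h ∘ ζ, fun x _ => harm_iso ζ (k1 _ (mem_univ _)), fun x hx => k2 _ (nz x hx),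
    a / 4, by positivity, fun g hg hv => ?_⟩
  · rw [UU_grad hF hW, UU_grad hG hW0]
    have := (h1 _ (nz x hx)).1
    have h3 : 0 ≤ ∑ i, ‖deriv (W i) (ζ x)‖ ^ 2 := by positivity
    simp only [deriv_const, norm_zero]
    simp
    linarith
  · simp only [Function.comp, map_zero, vn, g0]
    refine hxy.trans ?_
    rw [← sq_le_sq₀ (abs_nonneg _) (norm_nonneg _), UU_norm, f0, sq_abs]
    exact le_add_of_nonneg_right (by positivity)
  · have Fc := hF.continuous
    have Gc := hG.continuous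
    have yc : Continuous fun z => |(G z).re| ^ p :=
      (by fun_prop : Continuous fun z => |(G z).re|).rpow_const fun _ => Or.inr p0
    have m1 := minor (g := g ∘ ζ.symm) (f := fun z => |(G z).re| ^ p)
      (fun z hz => harm_iso ζ.symm (hg _ (by simpa using hz))) yc (fun z hz => by
        have := hv (ζ.symm z) (by simpa using hz)
        simpa [vn] using this)
    simp only [Function.comp, map_zero] at m1 ⊢
    have uc : Continuous fun t => ‖UU F W (zc t)‖ ^ p :=
      ((continuousOn_univ.1 (UU_harm hF hW).continuousOn).comp zc_cont).norm.rpow_const fun _ => Or.inr p0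
    have vc : Continuous fun t => VV p c' ((F (zc t)).re, (G (zc t)).re) := (VV_cont p0 c').comp (by fun_prop)
    have m2 := intervalIntegral.integral_mono_on (μ := volume)
      (f := fun t => VV p c' ((F (zc t)).re, (G (zc t)).re) + c ^ p * ‖UU F W (zc t)‖ ^ p)
      (g := fun t => |(G (zc t)).re| ^ p + c ^ p * ((1 + 1 / τ) * s) ^ p) zero_le_one
      ((vc.add (continuous_const.mul uc)).intervalIntegrable _ _)
      (((yc.comp zc_cont).add continuous_const).intervalIntegrable _ _) (fun t _ => by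
        have a1 : ‖UU F W (zc t)‖ ≤ |(F (zc t)).re| + s := by
          rw [← sq_le_sq₀ (norm_nonneg _) (by positivity), UU_norm]
          have := (h1 _ (zc_norm t).le).2
          nlinarith [sq_abs (F (zc t)).re, abs_nonneg (F (zc t)).re]
        have a2 := mul_le_mul_of_nonneg_left (split p0 τ0 (abs_nonneg _) s0.le (norm_nonneg _) a1) cp
        have a3 : c ^ p * ((1 + τ) * |(F (zc t)).re|) ^ p ≤ c' ^ p * |(F (zc t)).re| ^ p := by
          rw [← Real.mul_rpow hc0 (by positivity), ← Real.mul_rpow (by linarith) (by positivity)]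
          refine Real.rpow_le_rpow (by positivity) ?_ p0
          rw [← mul_assoc]
          gcongr
        simp only [VV]
        linarith)
    have uc' : Continuous fun t => c ^ p * ‖UU F W (zc t)‖ ^ p := continuous_const.mul uc
    have yc' : Continuous fun t => |(G (zc t)).re| ^ p := yc.comp zc_cont
    rw [intervalIntegral.integral_add (vc.intervalIntegrable _ _) (uc'.intervalIntegrable _ _),
      intervalIntegral.integral_add (yc'.intervalIntegrable _ _) (continuous_const.intervalIntegrable _ _),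
      intervalIntegral.integral_const_mul] at m2
    simp only [intervalIntegral.integral_const, sub_zero, smul_eq_mul, one_mul, Function.comp] at m2
    have m3 := mul_le_mul_of_nonneg_left k3 cp
    have m4 : c ^ p * (2 * (a / (8 * (c ^ p + 1)))) ≤ a / 4 := by
      rw [show c ^ p * (2 * (a / (8 * (c ^ p + 1)))) = a / 4 * (c ^ p / (c ^ p + 1)) by field_simp; ring]
      exact mul_le_of_le_one_right (by positivity) ((div_le_one (by positivity)).2 (by linarith))
    linarith

end Pool.Agent.H.MP_540347_an
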